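import Mathlib
import Pool.Agent.W829.RP.Defs

/-!
Project RP (helper829): RP-LOW, the lower bound of the missed volume.
-/

set_option autoImplicit false

open MeasureTheory Set Module
open scoped ENNReal

namespace Pool.Agent.W790.RP

open Pool.Agent.W829.RP

theorem low : S_HC → S_LOW := by
  intro hHC V _ _ _ _ _ _ K hK n t _
  have : ProperSpace V := FiniteDimensional.proper ℝ V
  have : SecondCountableTopology V := inferInstance
  obtain ⟨hKc, hKk, hKi⟩ := hK
  have hKm : MeasurableSet K := hKk.measurableSet
  have hv0 : volume K ≠ 0 := by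
    have h1 : 0 < volume (interior K) := isOpen_interior.measure_pos volume hKi
    exact (lt_of_lt_of_le h1 (measure_mono interior_subset)).ne'
  have hvt : volume K ≠ ⊤ := hKk.measure_lt_top.ne
  have hprob : IsProbabilityMeasure (unif K) := by
    refine ⟨?_⟩
    unfold unif
    rw [Measure.smul_apply, Measure.restrict_apply_univ, smul_eq_mul]
    exact ENNReal.inv_mul_cancel hv0 hvt
  have hsp : IsProbabilityMeasure (samp K n) := by
    unfold samp
    infer_instance
  set S : Set (V × (Fin n → V)) := {p | p.1 ∉ hull p.2} with hS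
  have hSm : MeasurableSet S := ((hHC V n).isOpen_compl).measurableSet
  set g : V → ℝ≥0∞ := fun x => samp K n {ω | x ∉ hull ω} with hg
  have hgm : Measurable g := measurable_measure_prodMk_left hSm
  have hmiss : miss K n = ∫⁻ x, g x ∂(volume.restrict K) := by
    have h1 := Measure.prod_apply (μ := volume.restrict K) (ν := samp K n) hSm
    have h2 := Measure.prod_apply_symm (μ := volume.restrict K) (ν := samp K n) hSm
    have h3 : miss K n = ∫⁻ ω, (volume.restrict K) ((fun x => (x, ω)) ⁻¹' S) ∂(samp K n) := by
      unfold miss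
      apply lintegral_congr
      intro ω
      rw [Measure.restrict_apply' hKm]
      congr 1
      ext x
      simp only [hS, mem_sdiff, mem_inter_iff, mem_preimage]
      exact and_comm
    rw [h3, ← h2, h1]
    rfl
  set c : ℝ≥0∞ := (1 - t / volume K) ^ n with hc
  have hsub : wet K t ⊆ {x | c ≤ g x} ∩ K := by
    rintro x ⟨hxK, hx⟩
    refine ⟨?_, hxK⟩
    unfold vf at hx
    obtain ⟨ℓ, hℓ⟩ := iInf_lt_iff.1 hx
    have hAo : IsOpen {w : V | ℓ w < ℓ x} := isOpen_lt ℓ.continuous continuous_const
    have hAc : Convex ℝ {w : V | ℓ w < ℓ x} := by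
      have := (convex_Iio (𝕜 := ℝ) (ℓ x)).linear_preimage ℓ.toLinearMap
      exact this
    have h1 : Set.pi univ (fun _ : Fin n => {w : V | ℓ w < ℓ x}) ⊆ {ω | x ∉ hull ω} := by
      intro ω hω hx
      have h2 : hull ω ⊆ {w : V | ℓ w < ℓ x} := by
        apply convexHull_min _ hAc
        rintro _ ⟨i, rfl⟩
        exact hω i (mem_univ i)
      exact absurd (h2 hx) (lt_irrefl (ℓ x))
    have h2 : 1 - t / volume K ≤ unif K {w : V | ℓ w < ℓ x} := by
      have h3 : unif K {w : V | ℓ w < ℓ x}ᶜ = volume (cap K ℓ (ℓ x)) / volume K := by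
        unfold unif
        rw [Measure.smul_apply, Measure.restrict_apply' hKm, smul_eq_mul,
          ← ENNReal.div_eq_inv_mul]
        congr 2
        ext w
        simp only [cap, mem_inter_iff, mem_compl_iff]
        constructor
        · rintro ⟨h4, h5⟩
          exact ⟨h5, not_lt.1 h4⟩
        · rintro ⟨h4, h5⟩
          exact ⟨not_lt.2 h5, h4⟩
      have h4 := prob_compl_eq_one_sub (μ := unif K) hAo.measurableSet.compl
      rw [compl_compl] at h4
      rw [h4, h3]
      exact tsub_le_tsub_left (ENNReal.div_le_div_right hℓ.le _) 1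
    calc c ≤ (unif K {w : V | ℓ w < ℓ x}) ^ n := pow_le_pow_left' h2 n
      _ = samp K n (Set.pi univ (fun _ : Fin n => {w : V | ℓ w < ℓ x})) := by
        unfold samp
        rw [Measure.pi_pi]
        simp
      _ ≤ g x := measure_mono h1
  calc c * volume (wet K t) ≤ c * volume ({x | c ≤ g x} ∩ K) := by gcongr
    _ = c * (volume.restrict K) {x | c ≤ g x} := by rw [Measure.restrict_apply' hKm]
    _ ≤ ∫⁻ x, g x ∂(volume.restrict K) := mul_meas_ge_le_lintegral hgm c
    _ = miss K n := hmiss.symm

end Pool.Agent.W790.RP
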